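import Mathlib

/-!
# Little Lipschitz functions on a rooted tree: a sufficient condition for hypercyclicity
-/

namespace Pool.Agent.R228.HT

open Filter Topology

variable {V : Type*}

/-- `f` belongs to the little Lipschitz space of the tree `G` with root `o`: the differences
`f(v) - f(v⁻)` along the edges `(v⁻, v)` tend to `0` as `|v|` tends to infinity. -/
def Lip0 (G : SimpleGraph V) (o : V) (f : V → ℂ) : Prop :=
  ∀ ε : ℝ, 0 < ε → ∃ N : ℕ, ∀ v w, G.Adj v w → G.dist o v = G.dist o w + 1 →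
    N ≤ G.dist o v → ‖f v - f w‖ < ε

/-- The norm `max (|f(o)|, sup |f(v) - f(v⁻)|)` of `f` is at most `B`. -/
def NormLe (G : SimpleGraph V) (o : V) (f : V → ℂ) (B : ℝ) : Prop :=
  ‖f o‖ ≤ B ∧ ∀ v w, G.Adj v w → ‖f v - f w‖ ≤ B

section graph

variable {G : SimpleGraph V}

theorem exists_adj_dist (hG : G.Connected) {c v : V} {r : ℕ} (h : G.dist c v = r + 1) :
    ∃ w, G.Adj v w ∧ G.dist c w = r := by
  obtain ⟨p, hp⟩ := hG.exists_walk_length_eq_dist v c
  rw [SimpleGraph.dist_comm, h] at hp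
  cases p with
  | nil => simp at hp
  | @cons _ w _ hadj q =>
    refine ⟨w, hadj, ?_⟩
    have h1 : q.length = r := by simpa using hp
    have h2 : G.dist w c ≤ r := h1 ▸ SimpleGraph.dist_le q
    have h3 : G.dist c v ≤ G.dist c w + G.dist w v := hG.dist_triangle
    have h4 : G.dist w v = 1 := SimpleGraph.dist_eq_one_iff_adj.2 hadj.symm
    rw [SimpleGraph.dist_comm] at h2
    omega

theorem ball_finite (hG : G.Connected) (hfin : ∀ v, (G.neighborSet v).Finite) (c : V) (r : ℕ) :
    {v | G.dist c v ≤ r}.Finite := by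
  induction r with
  | zero =>
    refine (Set.finite_singleton c).subset ?_
    intro v hv
    have : G.dist c v = 0 := Nat.le_zero.1 hv
    exact ((hG.dist_eq_zero_iff).1 this).symm
  | succ r ih =>
    refine (ih.union (ih.biUnion (fun w _ => hfin w))).subset ?_
    intro v hv
    rcases Nat.lt_or_ge (G.dist c v) (r + 1) with h | h
    · exact Or.inl (Nat.lt_succ_iff.1 h)
    · obtain ⟨w, hw, hd⟩ := exists_adj_dist hG (le_antisymm hv h)
      refine Or.inr ?_
      rw [Set.mem_iUnion₂]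
      exact ⟨w, hd.le, hw.symm⟩

theorem dist_adj_le (hG : G.Connected) {c v w : V} (h : G.Adj v w) :
    G.dist c v ≤ G.dist c w + 1 := by
  have h3 : G.dist c v ≤ G.dist c w + G.dist w v := hG.dist_triangle
  have h4 : G.dist w v = 1 := SimpleGraph.dist_eq_one_iff_adj.2 h.symm
  omega

/-- the bump function with centre `c` -/
noncomputable def bump (G : SimpleGraph V) (R : ℕ) (c v : V) : ℝ :=
  max 0 (1 - (G.dist c v : ℝ) / R)

theorem bump_self {R : ℕ} (c : V) : bump G R c c = 1 := by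
  simp [bump]

theorem bump_nonneg {R : ℕ} (c v : V) : 0 ≤ bump G R c v := le_max_left _ _

theorem bump_le_one {R : ℕ} (c v : V) : bump G R c v ≤ 1 := by
  apply max_le zero_le_one
  have : 0 ≤ (G.dist c v : ℝ) / R := by positivity
  linarith

theorem bump_zero {R : ℕ} (hR : 0 < R) {c v : V} (h : R ≤ G.dist c v) : bump G R c v = 0 := by
  apply max_eq_left
  have h1 : (0 : ℝ) < R := by exact_mod_cast hR
  have h2 : (R : ℝ) ≤ G.dist c v := by exact_mod_cast h
  have : 1 ≤ (G.dist c v : ℝ) / R := by rwa [le_div_iff₀ h1, one_mul]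
  linarith

theorem bump_ne {R : ℕ} (hR : 0 < R) {c v : V} (h : bump G R c v ≠ 0) : G.dist c v < R := by
  by_contra hc
  exact h (bump_zero hR (not_lt.1 hc))

theorem bump_adj (hG : G.Connected) {R : ℕ} (hR : 0 < R) {c v w : V} (h : G.Adj v w) :
    |bump G R c v - bump G R c w| ≤ 1 / R := by
  have h1 : (0 : ℝ) < R := by exact_mod_cast hR
  have e0 : |bump G R c v - bump G R c w|
      ≤ |(1 - (G.dist c v : ℝ) / R) - (1 - (G.dist c w : ℝ) / R)| := by
    simp only [bump]
    rw [max_comm 0, max_comm 0]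
    exact abs_max_sub_max_le_abs _ _ _
  refine e0.trans ?_
  have e : (1 - (G.dist c v : ℝ) / R) - (1 - (G.dist c w : ℝ) / R)
      = ((G.dist c w : ℝ) - G.dist c v) / R := by ring
  rw [e, abs_div, abs_of_pos h1]
  apply div_le_div_of_nonneg_right _ h1.le
  have h2 := dist_adj_le hG (c := c) h
  have h3 := dist_adj_le hG (c := c) h.symm
  rw [abs_le]
  constructor
  · have : (G.dist c v : ℝ) ≤ G.dist c w + 1 := by exact_mod_cast h2
    linarith
  · have : (G.dist c w : ℝ) ≤ G.dist c v + 1 := by exact_mod_cast h3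
    linarith

/-- a sum of bumps -/
noncomputable def bsum (G : SimpleGraph V) (R : ℕ) (P : Finset V) (c : V → V) (a : V → ℂ)
    (v : V) : ℂ := ∑ i ∈ P, a i * (bump G R (c i) v : ℂ)

theorem bsum_zero {R : ℕ} (hR : 0 < R) {P : Finset V} {c : V → V} {a : V → ℂ} {v : V}
    (h : ∀ i ∈ P, R ≤ G.dist (c i) v) : bsum G R P c a v = 0 := by
  apply Finset.sum_eq_zero
  intro i hi
  rw [bump_zero hR (h i hi)]
  simp

theorem bsum_single {R : ℕ} (hR : 0 < R) {P : Finset V} {c : V → V} {a : V → ℂ} {v : V} {i : V}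
    (hi : i ∈ P) (h : ∀ j ∈ P, j ≠ i → R ≤ G.dist (c j) v) :
    bsum G R P c a v = a i * (bump G R (c i) v : ℂ) := by
  apply Finset.sum_eq_single_of_mem i hi
  intro j hj hji
  rw [bump_zero hR (h j hj hji)]
  simp

theorem bsum_adj (hG : G.Connected) {R : ℕ} (hR : 0 < R) {P : Finset V} {c : V → V}
    {a : V → ℂ} {M : ℝ} (hM : 0 ≤ M) (ha : ∀ i ∈ P, ‖a i‖ ≤ M)
    (hsep : ∀ i ∈ P, ∀ j ∈ P, i ≠ j → 3 * R ≤ G.dist (c i) (c j)) {v w : V} (h : G.Adj v w) :
    ‖bsum G R P c a v - bsum G R P c a w‖ ≤ M / R := by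
  have h1 : (0 : ℝ) < R := by exact_mod_cast hR
  by_cases hex : ∃ i ∈ P, G.dist (c i) v < R ∨ G.dist (c i) w < R
  · obtain ⟨i, hi, hd⟩ := hex
    have hv : G.dist (c i) v ≤ R := by
      rcases hd with hd | hd
      · exact hd.le
      · have := dist_adj_le hG (c := c i) h
        omega
    have hw : G.dist (c i) w ≤ R := by
      rcases hd with hd | hd
      · have := dist_adj_le hG (c := c i) h.symm
        omega
      · exact hd.le
    have key : ∀ x, G.dist (c i) x ≤ R → ∀ j ∈ P, j ≠ i → R ≤ G.dist (c j) x := by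
      intro x hx j hj hji
      have h1 := hsep i hi j hj (Ne.symm hji)
      have h2 : G.dist (c i) (c j) ≤ G.dist (c i) x + G.dist x (c j) := hG.dist_triangle
      rw [SimpleGraph.dist_comm (u := x)] at h2
      omega
    rw [bsum_single hR hi (key v hv), bsum_single hR hi (key w hw), ← mul_sub, norm_mul,
      ← Complex.ofReal_sub, Complex.norm_real, Real.norm_eq_abs]
    calc ‖a i‖ * |bump G R (c i) v - bump G R (c i) w| ≤ M * (1 / R) :=
          mul_le_mul (ha i hi) (bump_adj hG hR h) (abs_nonneg _) hM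
      _ = M / R := by ring
  · push Not at hex
    rw [bsum_zero hR (fun i hi => (hex i hi).1), bsum_zero hR (fun i hi => (hex i hi).2)]
    simp only [sub_zero, norm_zero]
    positivity

theorem bsum_le (hG : G.Connected) {R : ℕ} (hR : 0 < R) {P : Finset V} {c : V → V}
    {a : V → ℂ} {M : ℝ} (hM : 0 ≤ M) (ha : ∀ i ∈ P, ‖a i‖ ≤ M)
    (hsep : ∀ i ∈ P, ∀ j ∈ P, i ≠ j → 3 * R ≤ G.dist (c i) (c j)) (v : V) :
    ‖bsum G R P c a v‖ ≤ M := by
  by_cases hex : ∃ i ∈ P, G.dist (c i) v < R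
  · obtain ⟨i, hi, hd⟩ := hex
    have key : ∀ j ∈ P, j ≠ i → R ≤ G.dist (c j) v := by
      intro j hj hji
      have h1 := hsep i hi j hj (Ne.symm hji)
      have h2 : G.dist (c i) (c j) ≤ G.dist (c i) v + G.dist v (c j) := hG.dist_triangle
      rw [SimpleGraph.dist_comm (u := v)] at h2
      omega
    rw [bsum_single hR hi key, norm_mul, Complex.norm_real, Real.norm_of_nonneg (bump_nonneg _ _)]
    calc ‖a i‖ * bump G R (c i) v ≤ M * 1 :=
          mul_le_mul (ha i hi) (bump_le_one _ _) (bump_nonneg _ _) hM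
      _ = M := mul_one M
  · push Not at hex
    rw [bsum_zero hR hex]
    simpa using hM

end graph

/-- The perturbation step. -/
theorem step {G : SimpleGraph V} (hG : G.Connected) (hfin : ∀ v, (G.neighborSet v).Finite)
    (o : V) (φ : V → V) (hinj : Function.Injective φ)
    (A1 : ∀ (S : Set V) (R : ℕ), S.Finite → ∃ n0, ∀ n ≥ n0, ∀ v, φ^[n] v ∈ S →
      (∀ x ∈ S, R ≤ G.dist v x) ∧ ∀ v', φ^[n] v' ∈ S → v ≠ v' → R ≤ G.dist v v')
    (A2 : ∀ (S : Set V) (R : ℕ), S.Finite → ∃ n0, ∀ n ≥ n0, ∀ w,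
      (w ∈ S ∨ ∃ v, v ≠ w ∧ φ^[n] v ∈ S ∧ G.dist v w < R) →
        R ≤ G.dist (φ^[n] w) o ∧ ∀ v', v' ≠ w → R ≤ G.dist (φ^[n] w) (φ^[n] v'))
    (h g : V → ℂ) (hh : h.support.Finite) (hg : g.support.Finite) (ε : ℝ) (hε : 0 < ε) (N : ℕ) :
    ∃ n ≥ N, ∃ f : V → ℂ, f.support.Finite ∧ NormLe G o (f - h) ε ∧
      NormLe G o (f ∘ φ^[n] - g) ε := by
  classical
  -- a common bound
  obtain ⟨M, hM1, hMh, hMg⟩ : ∃ M : ℝ, 1 ≤ M ∧ (∀ v, ‖h v‖ ≤ M) ∧ ∀ v, ‖g v‖ ≤ M := by
    have key : ∀ k : V → ℂ, k.support.Finite → ∃ M : ℝ, 0 ≤ M ∧ ∀ v, ‖k v‖ ≤ M := by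
      intro k hk
      refine ⟨∑ v ∈ hk.toFinset, ‖k v‖, Finset.sum_nonneg (fun _ _ => norm_nonneg _), fun v => ?_⟩
      by_cases hv : k v = 0
      · rw [hv, norm_zero]
        exact Finset.sum_nonneg (fun _ _ => norm_nonneg _)
      · exact Finset.single_le_sum (f := fun v => ‖k v‖) (fun _ _ => norm_nonneg _)
          (hk.mem_toFinset.2 hv)
    obtain ⟨M1, h1, h2⟩ := key h hh
    obtain ⟨M2, h3, h4⟩ := key g hg
    exact ⟨1 + M1 + M2, by linarith, fun v => (h2 v).trans (by linarith),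
      fun v => (h4 v).trans (by linarith)⟩
  obtain ⟨R, hR⟩ := exists_nat_gt (M / ε)
  have hR0 : 0 < R := by
    have : (0 : ℝ) < R := lt_of_le_of_lt (by positivity) hR
    exact_mod_cast this
  have hR1 : (0 : ℝ) < R := by exact_mod_cast hR0
  have hMR : M / R ≤ ε := by
    rw [div_lt_iff₀ hε] at hR
    rw [div_le_iff₀ hR1]
    linarith
  set S : Set V := h.support ∪ g.support ∪ {o} with hS
  have hSf : S.Finite := (hh.union hg).union (Set.finite_singleton o)
  obtain ⟨n1, hn1⟩ := A1 S (3 * R) hSf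
  obtain ⟨n2, hn2⟩ := A2 S (3 * R) hSf
  set n := max N (max n1 n2) with hn
  have B1 := hn1 n ((le_max_left _ _).trans (le_max_right _ _))
  have B2 := hn2 n ((le_max_right _ _).trans (le_max_right _ _))
  have hinjn : Function.Injective φ^[n] := hinj.iterate n
  have hPf : (φ^[n] ⁻¹' h.support).Finite := hh.preimage hinjn.injOn
  set P := hPf.toFinset with hP
  have hPm : ∀ v, v ∈ P ↔ h (φ^[n] v) ≠ 0 := by
    intro v
    rw [hP, Set.Finite.mem_toFinset]
    rfl
  have hPS : ∀ v ∈ P, φ^[n] v ∈ S := fun v hv => Or.inl (Or.inl ((hPm v).1 hv))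
  have hsepP : ∀ i ∈ P, ∀ j ∈ P, i ≠ j → 3 * R ≤ G.dist (id i) (id j) := by
    intro i hi j hj hij
    exact (B1 i (hPS i hi)).2 j (hPS j hj) hij
  set a : V → ℂ := fun v => h (φ^[n] v) with ha
  set g' : V → ℂ := fun v => g v + bsum G R P id a v with hg'
  have hsum_S : ∀ x ∈ S, bsum G R P id a x = 0 := by
    intro x hx
    apply bsum_zero hR0
    intro i hi
    have := (B1 i (hPS i hi)).1 x hx
    simp only [id]
    omega
  have hg'P : ∀ v ∈ P, g' v = h (φ^[n] v) := by
    intro v hv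
    have h1 : g v = 0 := by
      by_contra hc
      have := (B1 v (hPS v hv)).1 v (Or.inl (Or.inr hc))
      rw [SimpleGraph.dist_self] at this
      omega
    simp only [hg', h1, zero_add]
    rw [bsum_single hR0 hv]
    · simp [bump_self, ha]
    · intro j hj hjv
      have := hsepP j hj v hv hjv
      simp only [id] at this ⊢
      omega
  have hg'M : ∀ v, ‖g' v‖ ≤ M := by
    intro v
    by_cases hv : g v = 0
    · simp only [hg', hv, zero_add]
      exact bsum_le hG hR0 (by linarith) (fun i _ => hMh _) hsepP v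
    · simp only [hg', hsum_S v (Or.inl (Or.inr hv)), add_zero]
      exact hMg v
  have hg'ne : ∀ v, g' v ≠ 0 → v ∈ S ∨ ∃ u ∈ P, G.dist u v < R := by
    intro v hv
    by_cases hgv : g v = 0
    · right
      by_contra hc
      push Not at hc
      apply hv
      simp only [hg', hgv, zero_add]
      exact bsum_zero hR0 hc
    · exact Or.inl (Or.inl (Or.inr hgv))
  have hg'f : g'.support.Finite := by
    refine (hSf.union (P.finite_toSet.biUnion (fun u _ => ball_finite hG hfin u R))).subset ?_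
    intro v hv
    rcases hg'ne v hv with h1 | ⟨u, hu, hd⟩
    · exact Or.inl h1
    · refine Or.inr ?_
      rw [Set.mem_iUnion₂]
      exact ⟨u, hu, hd.le⟩
  set Q := hg'f.toFinset \ P with hQ
  have hQm : ∀ v, v ∈ Q ↔ g' v ≠ 0 ∧ v ∉ P := by
    intro v
    rw [hQ, Finset.mem_sdiff, Set.Finite.mem_toFinset]
    rfl
  have hQB : ∀ w ∈ Q, 3 * R ≤ G.dist (φ^[n] w) o ∧
      ∀ v', v' ≠ w → 3 * R ≤ G.dist (φ^[n] w) (φ^[n] v') := by
    intro w hw
    obtain ⟨h1, h2⟩ := (hQm w).1 hw
    apply B2 w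
    rcases hg'ne w h1 with h3 | ⟨u, hu, hd⟩
    · exact Or.inl h3
    · right
      exact ⟨u, fun hc => h2 (hc ▸ hu), hPS u hu, by omega⟩
  have hsepQ : ∀ i ∈ Q, ∀ j ∈ Q, i ≠ j → 3 * R ≤ G.dist (φ^[n] i) (φ^[n] j) := by
    intro i hi j hj hij
    exact (hQB i hi).2 j (Ne.symm hij)
  set f : V → ℂ := fun v => h v + bsum G R Q φ^[n] g' v with hf
  have hcomp : f ∘ φ^[n] = g' := by
    funext v
    simp only [Function.comp, hf]
    by_cases hvP : v ∈ P
    · rw [hg'P v hvP, bsum_zero hR0, add_zero]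
      intro i hi
      have h1 : v ≠ i := fun hc => ((hQm i).1 hi).2 (hc ▸ hvP)
      have := (hQB i hi).2 v h1
      omega
    · have h1 : h (φ^[n] v) = 0 := by
        by_contra hc
        exact hvP ((hPm v).2 hc)
      rw [h1, zero_add]
      by_cases hvQ : v ∈ Q
      · rw [bsum_single hR0 hvQ]
        · rw [bump_self]
          simp
        · intro j hj hjv
          have := (hQB j hj).2 v (Ne.symm hjv)
          omega
      · have h2 : g' v = 0 := by
          by_contra hc
          exact hvQ ((hQm v).2 ⟨hc, hvP⟩)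
        rw [h2]
        apply bsum_zero hR0
        intro j hj
        have h3 : v ≠ j := fun hc => hvQ (hc ▸ hj)
        have := (hQB j hj).2 v h3
        omega
  refine ⟨n, le_max_left _ _, f, ?_, ⟨?_, ?_⟩, ⟨?_, ?_⟩⟩
  · refine (hh.union (Q.finite_toSet.biUnion
      (fun u _ => ball_finite hG hfin (φ^[n] u) R))).subset ?_
    intro v hv
    by_contra hc
    rw [Set.mem_union, not_or, Set.mem_iUnion₂] at hc
    push Not at hc
    obtain ⟨hc1, hc2⟩ := hc
    apply hv
    have h1 : h v = 0 := by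
      by_contra h2
      exact hc1 h2
    simp only [hf, h1, zero_add]
    apply bsum_zero hR0
    intro i hi
    have := hc2 i hi
    simp only [Set.mem_ofPred_eq, not_le] at this
    exact this.le
  · have : (f - h) o = 0 := by
      simp only [Pi.sub_apply, hf, add_sub_cancel_left]
      apply bsum_zero hR0
      intro i hi
      have := (hQB i hi).1
      omega
    rw [this, norm_zero]
    exact hε.le
  · intro v w hvw
    have : (f - h) v - (f - h) w = bsum G R Q φ^[n] g' v - bsum G R Q φ^[n] g' w := by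
      simp only [Pi.sub_apply, hf]
      ring
    rw [this]
    exact (bsum_adj hG hR0 (by linarith) (fun i _ => hg'M i) hsepQ hvw).trans hMR
  · rw [hcomp]
    have : (g' - g) o = 0 := by
      simp only [Pi.sub_apply, hg', add_sub_cancel_left]
      exact hsum_S o (Or.inr rfl)
    rw [this, norm_zero]
    exact hε.le
  · intro v w hvw
    rw [hcomp]
    have : (g' - g) v - (g' - g) w = bsum G R P id a v - bsum G R P id a w := by
      simp only [Pi.sub_apply, hg']
      ring
    rw [this]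
    exact (bsum_adj hG hR0 (by linarith) (fun i _ => hMh _) hsepP hvw).trans hMR

end Pool.Agent.R228.HT
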