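import Pool.Agent.R228.HT.A

/-!
# Little Lipschitz functions on a rooted tree: existence of a hypercyclic vector
-/

namespace Pool.Agent.R228.HT

open Filter Topology

variable {V : Type*} {G : SimpleGraph V} {o : V}

theorem NormLe.mono {f : V → ℂ} {A B : ℝ} (h : NormLe G o f A) (hAB : A ≤ B) :
    NormLe G o f B := ⟨h.1.trans hAB, fun v w hvw => (h.2 v w hvw).trans hAB⟩

theorem NormLe.add {f g : V → ℂ} {A B : ℝ} (h : NormLe G o f A) (h' : NormLe G o g B) :
    NormLe G o (f + g) (A + B) := by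
  refine ⟨(norm_add_le _ _).trans (add_le_add h.1 h'.1), fun v w hvw => ?_⟩
  have : (f + g) v - (f + g) w = (f v - f w) + (g v - g w) := by
    simp only [Pi.add_apply]; ring
  rw [this]
  exact (norm_add_le _ _).trans (add_le_add (h.2 v w hvw) (h'.2 v w hvw))

theorem NormLe.walk {f : V → ℂ} {B : ℝ} (h : NormLe G o f B) {v w : V} (p : G.Walk v w) :
    ‖f v - f w‖ ≤ p.length * B := by
  induction p with
  | nil => simp
  | @cons a b c hab q ih =>
    have h1 := h.2 a b hab
    have : f a - f c = (f a - f b) + (f b - f c) := by ring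
    rw [this, SimpleGraph.Walk.length_cons]
    push_cast
    calc _ ≤ ‖f a - f b‖ + ‖f b - f c‖ := norm_add_le _ _
      _ ≤ _ := by linarith

theorem NormLe.dist (hG : G.Connected) {f : V → ℂ} {B : ℝ} (h : NormLe G o f B) (v w : V) :
    ‖f v - f w‖ ≤ G.dist v w * B := by
  obtain ⟨p, hp⟩ := hG.exists_walk_length_eq_dist v w
  rw [← hp]
  exact h.walk p

theorem NormLe.nonneg {f : V → ℂ} {B : ℝ} (h : NormLe G o f B) : 0 ≤ B :=
  (norm_nonneg _).trans h.1

theorem NormLe.comp (hG : G.Connected) {φ : V → V} {L : ℕ}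
    (hL : ∀ v w, G.Adj v w → G.dist (φ v) (φ w) ≤ L) {f : V → ℂ} {B : ℝ} (h : NormLe G o f B) :
    NormLe G o (f ∘ φ) ((1 + G.dist (φ o) o + L : ℝ) * B) := by
  have hB := h.nonneg
  refine ⟨?_, fun v w hvw => ?_⟩
  · have h1 := h.dist hG (φ o) o
    have h2 : (f ∘ φ) o = (f (φ o) - f o) + f o := by simp
    rw [h2]
    have h3 : 0 ≤ (L : ℝ) * B := by positivity
    calc _ ≤ ‖f (φ o) - f o‖ + ‖f o‖ := norm_add_le _ _
      _ ≤ G.dist (φ o) o * B + B := add_le_add h1 h.1
      _ ≤ _ := by linarith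
  · have h1 := h.dist hG (φ v) (φ w)
    have h2 : (G.dist (φ v) (φ w) : ℝ) ≤ L := by exact_mod_cast hL v w hvw
    have h3 : 0 ≤ (1 + G.dist (φ o) o : ℝ) * B := by positivity
    calc _ ≤ G.dist (φ v) (φ w) * B := h1
      _ ≤ L * B := mul_le_mul_of_nonneg_right h2 hB
      _ ≤ _ := by linarith

theorem NormLe.iterate (hG : G.Connected) {φ : V → V} {L : ℕ}
    (hL : ∀ v w, G.Adj v w → G.dist (φ v) (φ w) ≤ L) {f : V → ℂ} {B : ℝ} (h : NormLe G o f B)
    (n : ℕ) : NormLe G o (f ∘ φ^[n]) ((1 + G.dist (φ o) o + L : ℝ) ^ n * B) := by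
  induction n with
  | zero => simpa using h
  | succ n ih =>
    rw [Function.iterate_succ, ← Function.comp_assoc]
    have := ih.comp hG hL
    rw [pow_succ']
    rwa [mul_assoc]

theorem NormLe.lim {u : ℕ → V → ℂ} {f : V → ℂ} {c : ℝ}
    (h : ∀ j, NormLe G o (u (j + 1) - u j) (c / 2 / 2 ^ j))
    (hf : ∀ v, Tendsto (fun j => u j v) atTop (𝓝 (f v))) : NormLe G o (f - u 0) c := by
  refine ⟨?_, fun v w hvw => ?_⟩
  · have := dist_le_of_le_geometric_two_of_tendsto₀ (f := fun j => u j o) (a := f o)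
      (fun j => by
        rw [dist_comm, dist_eq_norm]
        exact (h j).1) (hf o)
    rwa [dist_comm, dist_eq_norm] at this
  · have := dist_le_of_le_geometric_two_of_tendsto₀ (f := fun j => u j v - u j w)
      (a := f v - f w) (fun j => by
        rw [dist_comm, dist_eq_norm]
        have h1 := (h j).2 v w hvw
        have h2 : u (j + 1) v - u (j + 1) w - (u j v - u j w)
            = (u (j + 1) - u j) v - (u (j + 1) - u j) w := by
          simp only [Pi.sub_apply]; ring
        rwa [h2]) ((hf v).sub (hf w))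
    rw [dist_comm, dist_eq_norm] at this
    have h2 : (f - u 0) v - (f - u 0) w = f v - f w - (u 0 v - u 0 w) := by
      simp only [Pi.sub_apply]; ring
    rwa [h2]

/-- Finitely supported functions are dense. -/
theorem cutoff (hG : G.Connected) (hfin : ∀ v, (G.neighborSet v).Finite) {g : V → ℂ}
    (hg : ∀ ε : ℝ, 0 < ε → ∃ N : ℕ, ∀ v w, G.Adj v w → N ≤ G.dist o v → ‖g v - g w‖ < ε)
    {ε : ℝ} (hε : 0 < ε) : ∃ g' : V → ℂ, g'.support.Finite ∧ NormLe G o (g' - g) ε := by
  obtain ⟨N0, hN0⟩ := hg (ε / 4) (by positivity)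
  set δ := ε / 4 with hδ
  have hδ0 : 0 < δ := by positivity
  obtain ⟨C, hC0, hC⟩ : ∃ C : ℝ, 0 ≤ C ∧ ∀ v, G.dist o v ≤ N0 → ‖g v‖ ≤ C := by
    have hb := ball_finite hG hfin o N0
    refine ⟨∑ v ∈ hb.toFinset, ‖g v‖, Finset.sum_nonneg (fun _ _ => norm_nonneg _),
      fun v hv => ?_⟩
    exact Finset.single_le_sum (f := fun v => ‖g v‖) (fun _ _ => norm_nonneg _)
      (hb.mem_toFinset.2 hv)
  have hgrow : ∀ k : ℕ, ∀ v, G.dist o v = k → ‖g v‖ ≤ C + δ * k := by
    intro k
    induction k with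
    | zero =>
      intro v hv
      have := hC v (by omega)
      simpa using this
    | succ k ih =>
      intro v hv
      rcases Nat.lt_or_ge N0 (k + 1) with h | h
      · obtain ⟨w, hw, hd⟩ := exists_adj_dist hG hv
        have h1 := hN0 v w hw (by omega)
        have h2 := ih w hd
        have h3 : g v = (g v - g w) + g w := by ring
        rw [h3]
        push_cast
        calc _ ≤ ‖g v - g w‖ + ‖g w‖ := norm_add_le _ _
          _ ≤ _ := by linarith
      · have := hC v (by omega)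
        have h2 : 0 ≤ δ * ((k + 1 : ℕ) : ℝ) := by positivity
        linarith
  obtain ⟨N, hN⟩ := exists_nat_gt (max (C / δ) (N0 + 1 : ℝ))
  have hN1 : C ≤ δ * N := by
    have := (le_max_left _ _).trans_lt hN
    rw [div_lt_iff₀ hδ0] at this
    linarith
  have hN2 : N0 + 1 < N := by
    have := (le_max_right _ _).trans_lt hN
    exact_mod_cast this
  have hNpos : (0 : ℝ) < N := by
    have : 0 < N := by omega
    exact_mod_cast this
  set χ : V → ℝ := fun v => max 0 (min 1 (2 - (G.dist o v : ℝ) / N)) with hχ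
  have hχ1 : ∀ v, G.dist o v ≤ N → χ v = 1 := by
    intro v hv
    have h1 : (G.dist o v : ℝ) / N ≤ 1 := by
      rw [div_le_one hNpos]
      exact_mod_cast hv
    simp only [hχ]
    rw [min_eq_left (by linarith), max_eq_right zero_le_one]
  have hχ0 : ∀ v, 2 * N ≤ G.dist o v → χ v = 0 := by
    intro v hv
    have h1 : 2 ≤ (G.dist o v : ℝ) / N := by
      rw [le_div_iff₀ hNpos]
      exact_mod_cast hv
    simp only [hχ]
    rw [max_eq_left]
    exact (min_le_right _ _).trans (by linarith)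
  have hχb : ∀ v, 0 ≤ χ v ∧ χ v ≤ 1 := by
    intro v
    exact ⟨le_max_left _ _, max_le zero_le_one (min_le_left _ _)⟩
  have hχL : ∀ v w, G.Adj v w → |χ v - χ w| ≤ 1 / N := by
    intro v w hvw
    have e0 : |χ v - χ w| ≤ |(2 - (G.dist o v : ℝ) / N) - (2 - (G.dist o w : ℝ) / N)| := by
      simp only [hχ]
      rw [max_comm 0, max_comm 0]
      refine (abs_max_sub_max_le_abs _ _ _).trans ?_
      refine (abs_min_sub_min_le_max _ _ _ _).trans (max_le ?_ le_rfl)
      simp
    refine e0.trans ?_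
    have e : (2 - (G.dist o v : ℝ) / N) - (2 - (G.dist o w : ℝ) / N)
        = ((G.dist o w : ℝ) - G.dist o v) / N := by ring
    rw [e, abs_div, abs_of_pos hNpos]
    apply div_le_div_of_nonneg_right _ hNpos.le
    have h2 := dist_adj_le hG (c := o) hvw
    have h3 := dist_adj_le hG (c := o) hvw.symm
    rw [abs_le]
    constructor
    · have : (G.dist o v : ℝ) ≤ G.dist o w + 1 := by exact_mod_cast h2
      linarith
    · have : (G.dist o w : ℝ) ≤ G.dist o v + 1 := by exact_mod_cast h3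
      linarith
  refine ⟨fun v => (χ v : ℂ) * g v, ?_, ?_, ?_⟩
  · refine (ball_finite hG hfin o (2 * N)).subset ?_
    intro v hv
    by_contra hc
    apply hv
    have : 2 * N ≤ G.dist o v := by
      have : ¬ G.dist o v ≤ 2 * N := hc
      omega
    simp [hχ0 v this]
  · have : ((fun v => (χ v : ℂ) * g v) - g) o = 0 := by
      simp only [Pi.sub_apply]
      rw [hχ1 o (by simp)]
      simp
    rw [this, norm_zero]
    exact hε.le
  · intro v w hvw
    by_cases hb : G.dist o v ≤ N ∧ G.dist o w ≤ N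
    · simp only [Pi.sub_apply]
      rw [hχ1 v hb.1, hχ1 w hb.2]
      simp [hε.le]
    · have hd1 := dist_adj_le hG (c := o) hvw
      have hd2 := dist_adj_le hG (c := o) hvw.symm
      have hbv : N0 ≤ G.dist o v := by
        rw [not_and_or] at hb
        rcases hb with hb | hb <;> omega
      have h1 := hN0 v w hvw hbv
      have h2 : |χ v - χ w| * ‖g w‖ ≤ 3 * δ := by
        by_cases hbig : 2 * N ≤ G.dist o v ∧ 2 * N ≤ G.dist o w
        · rw [hχ0 v hbig.1, hχ0 w hbig.2]
          simp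
          positivity
        · have hw : G.dist o w ≤ 2 * N := by
            rw [not_and_or] at hbig
            rcases hbig with hb | hb <;> omega
          have h3 := hgrow _ w rfl
          have h4 : (G.dist o w : ℝ) ≤ 2 * N := by exact_mod_cast hw
          have h5 : ‖g w‖ ≤ 3 * δ * N := by nlinarith
          calc |χ v - χ w| * ‖g w‖ ≤ (1 / N) * (3 * δ * N) :=
                mul_le_mul (hχL v w hvw) h5 (norm_nonneg _) (by positivity)
            _ = 3 * δ := by field_simp
      have h3 : ((fun v => (χ v : ℂ) * g v) - g) v - ((fun v => (χ v : ℂ) * g v) - g) w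
          = ((χ v - 1 : ℝ) : ℂ) * (g v - g w) + ((χ v - χ w : ℝ) : ℂ) * g w := by
        simp only [Pi.sub_apply]
        push_cast
        ring
      rw [h3]
      calc _ ≤ ‖((χ v - 1 : ℝ) : ℂ) * (g v - g w)‖ + ‖((χ v - χ w : ℝ) : ℂ) * g w‖ :=
            norm_add_le _ _
        _ = |χ v - 1| * ‖g v - g w‖ + |χ v - χ w| * ‖g w‖ := by
            rw [norm_mul, norm_mul, Complex.norm_real, Complex.norm_real, Real.norm_eq_abs,
              Real.norm_eq_abs]
        _ ≤ 1 * δ + 3 * δ := by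
            refine add_le_add (mul_le_mul ?_ h1.le (norm_nonneg _) zero_le_one) h2
            rw [abs_le]
            have := hχb v
            constructor <;> linarith
        _ = ε := by rw [hδ]; ring

/-- functions with finite support and values in `ℚ + iℚ` -/
noncomputable def toC (q : V →₀ ℚ × ℚ) (v : V) : ℂ := ⟨(q v).1, (q v).2⟩

theorem exists_toC {g : V → ℂ} (hg : g.support.Finite) {ε : ℝ} (hε : 0 < ε) :
    ∃ q : V →₀ ℚ × ℚ, NormLe G o (toC q - g) ε := by
  classical
  have key : ∀ z : ℂ, ∃ a : ℚ × ℚ, ‖(⟨a.1, a.2⟩ : ℂ) - z‖ ≤ ε / 2 := by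
    intro z
    obtain ⟨a, ha1, ha2⟩ := exists_rat_btwn (show z.re < z.re + ε / 4 by linarith)
    obtain ⟨b, hb1, hb2⟩ := exists_rat_btwn (show z.im < z.im + ε / 4 by linarith)
    refine ⟨(a, b), (Complex.norm_le_abs_re_add_abs_im _).trans ?_⟩
    simp only [Complex.sub_re, Complex.sub_im]
    rw [abs_of_pos (by linarith), abs_of_pos (by linarith)]
    linarith
  choose a ha using key
  let q : V →₀ ℚ × ℚ := Finsupp.onFinset hg.toFinset (fun v => if g v = 0 then 0 else a (g v))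
    (by
      intro v hv
      rw [Set.Finite.mem_toFinset]
      by_contra hc
      have : g v = 0 := by
        by_contra h2
        exact hc h2
      exact hv (if_pos this))
  have hq : ∀ v, ‖(toC q - g) v‖ ≤ ε / 2 := by
    intro v
    have h1 : q v = if g v = 0 then 0 else a (g v) := rfl
    simp only [Pi.sub_apply, toC, h1]
    by_cases h : g v = 0
    · rw [if_pos h, h]
      have : (⟨((0 : ℚ × ℚ).1 : ℝ), ((0 : ℚ × ℚ).2 : ℝ)⟩ : ℂ) - 0 = 0 := by
        apply Complex.ext <;> simp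
      rw [this, norm_zero]
      positivity
    · rw [if_neg h]
      exact ha _
  refine ⟨q, (hq o).trans (by linarith), fun v w _ => ?_⟩
  calc _ ≤ ‖(toC q - g) v‖ + ‖(toC q - g) w‖ := norm_sub_le _ _
    _ ≤ ε / 2 + ε / 2 := add_le_add (hq v) (hq w)
    _ = ε := by ring

theorem hypercyclic [Countable V] (hG : G.Connected) (hfin : ∀ v, (G.neighborSet v).Finite)
    (hT : ∀ v w, G.Adj v w → G.dist o v = G.dist o w + 1 ∨ G.dist o w = G.dist o v + 1)
    (φ : V → V) (hinj : Function.Injective φ) (L : ℕ)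
    (hL : ∀ v w, G.Adj v w → G.dist (φ v) (φ w) ≤ L)
    (A1 : ∀ (S : Set V) (R : ℕ), S.Finite → ∃ n0, ∀ n ≥ n0, ∀ v, φ^[n] v ∈ S →
      (∀ x ∈ S, R ≤ G.dist v x) ∧ ∀ v', φ^[n] v' ∈ S → v ≠ v' → R ≤ G.dist v v')
    (A2 : ∀ (S : Set V) (R : ℕ), S.Finite → ∃ n0, ∀ n ≥ n0, ∀ w,
      (w ∈ S ∨ ∃ v, v ≠ w ∧ φ^[n] v ∈ S ∧ G.dist v w < R) →
        R ≤ G.dist (φ^[n] w) o ∧ ∀ v', v' ≠ w → R ≤ G.dist (φ^[n] w) (φ^[n] v')) :
    ∃ f : V → ℂ, Lip0 G o f ∧ ∀ g : V → ℂ, Lip0 G o g → ∀ ε : ℝ, 0 < ε →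
      ∃ n : ℕ, NormLe G o (fun v => f (φ^[n] v) - g v) ε := by
  classical
  obtain ⟨e, he⟩ := exists_surjective_nat (V →₀ ℚ × ℚ)
  set M : ℝ := 1 + G.dist (φ o) o + L with hM
  have hM1 : 1 ≤ M := by
    have : (0 : ℝ) ≤ G.dist (φ o) o := by positivity
    have : (0 : ℝ) ≤ L := by positivity
    linarith
  have hMn : ∀ n : ℕ, 1 ≤ M ^ n := fun n => one_le_pow₀ hM1
  set D : ℕ → V → ℂ := fun k => toC (e k.unpair.1) with hD
  have hDf : ∀ k, (D k).support.Finite := by
    intro k
    refine (e k.unpair.1).hasFiniteSupport.subset ?_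
    intro v hv hc
    apply hv
    simp only [hD, toC]
    have : (e k.unpair.1) v = 0 := hc
    rw [this]
    apply Complex.ext <;> simp
  have hstep : ∀ (s : {f : V → ℂ // f.support.Finite} × ℕ) (k : ℕ),
      ∃ s' : {f : V → ℂ // f.support.Finite} × ℕ, s.2 ≤ s'.2 ∧
        NormLe G o (s'.1.1 - s.1.1) (1 / 2 / 2 ^ k / M ^ s.2) ∧
        NormLe G o (s'.1.1 ∘ φ^[s'.2] - D k) (1 / 2 / 2 ^ k) := by
    intro s k
    have hpos : (0 : ℝ) < 1 / 2 / 2 ^ k / M ^ s.2 := by
      have := hMn s.2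
      positivity
    obtain ⟨n, hn, f, hf, h1, h2⟩ := step hG hfin o φ hinj A1 A2 s.1.1 (D k) s.1.2 (hDf k)
      _ hpos s.2
    refine ⟨(⟨f, hf⟩, n), hn, h1, h2.mono ?_⟩
    apply div_le_self (by positivity) (hMn _)
  choose nxt hn1 hn2 hn3 using hstep
  let s : ℕ → {f : V → ℂ // f.support.Finite} × ℕ :=
    fun k => Nat.rec (⟨0, by simp⟩, 0) (fun k s => nxt s k) k
  have hs : ∀ k, s (k + 1) = nxt (s k) k := fun k => rfl
  have hmono : ∀ k j, (s k).2 ≤ (s (k + j)).2 := by
    intro k j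
    induction j with
    | zero => exact le_rfl
    | succ j ih =>
      refine ih.trans ?_
      rw [← add_assoc, hs]
      exact hn1 _ _
  have hdiff : ∀ k, NormLe G o ((s (k + 1)).1.1 - (s k).1.1) (1 / 2 / 2 ^ k / M ^ (s k).2) := by
    intro k
    rw [hs]
    exact hn2 _ _
  have hclose : ∀ k, NormLe G o ((s (k + 1)).1.1 ∘ φ^[(s (k + 1)).2] - D k) (1 / 2 / 2 ^ k) := by
    intro k
    rw [hs]
    exact hn3 _ _
  -- the limit
  have hlim : ∀ v, ∃ z, Tendsto (fun k => (s k).1.1 v) atTop (𝓝 z) := by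
    intro v
    apply cauchySeq_tendsto_of_complete
    apply cauchySeq_of_le_geometric_two (C := 1 + G.dist v o)
    intro k
    rw [dist_comm, dist_eq_norm]
    have h1 := (hdiff k).mono (div_le_self (by positivity) (hMn _))
    have h2 := h1.dist hG v o
    have h3 : (s (k + 1)).1.1 v - (s k).1.1 v
        = (((s (k + 1)).1.1 - (s k).1.1) v - ((s (k + 1)).1.1 - (s k).1.1) o)
          + ((s (k + 1)).1.1 - (s k).1.1) o := by simp
    rw [h3]
    calc _ ≤ _ := norm_add_le _ _
      _ ≤ G.dist v o * (1 / 2 / 2 ^ k) + 1 / 2 / 2 ^ k := add_le_add h2 h1.1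
      _ = _ := by ring
  choose f hf using hlim
  have htail : ∀ k, NormLe G o (f - (s k).1.1) (1 / 2 ^ k / M ^ (s k).2) := by
    intro k
    refine NormLe.lim (u := fun j => (s (k + j)).1.1) ?_ ?_
    · intro j
      refine (hdiff (k + j)).mono ?_
      have h1 : M ^ (s k).2 ≤ M ^ (s (k + j)).2 := pow_le_pow_right₀ hM1 (hmono k j)
      have h2 := hMn (s k).2
      have e1 : 1 / 2 ^ k / M ^ (s k).2 / 2 / 2 ^ j = 1 / 2 / 2 ^ (k + j) / M ^ (s k).2 := by
        rw [pow_add]
        field_simp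
      rw [e1]
      apply div_le_div_of_nonneg_left (by positivity) (by linarith) h1
    · intro v
      have := (hf v).comp (tendsto_add_atTop_nat k)
      refine this.congr (fun j => ?_)
      simp [Function.comp, add_comm]
  have hLip : Lip0 G o f := by
    intro ε hε
    obtain ⟨k, hk⟩ := exists_pow_lt_of_lt_one (half_pos hε) (show (1 / 2 : ℝ) < 1 by norm_num)
    have h1 : NormLe G o (f - (s k).1.1) (ε / 2) := by
      refine (htail k).mono ?_
      refine (div_le_self (by positivity) (hMn _)).trans ?_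
      rw [one_div_pow] at hk
      exact hk.le
    have hsup := (s k).1.2
    obtain ⟨N, hN⟩ : ∃ N : ℕ, ∀ v, (s k).1.1 v ≠ 0 → G.dist o v < N := by
      refine ⟨∑ v ∈ hsup.toFinset, G.dist o v + 1, fun v hv => ?_⟩
      have := Finset.single_le_sum (f := fun v => G.dist o v) (fun _ _ => Nat.zero_le _)
        (hsup.mem_toFinset.2 hv)
      have h2 : G.dist o v ≤ ∑ v ∈ hsup.toFinset, G.dist o v := this
      omega
    refine ⟨N + 1, fun v w hvw hd hNv => ?_⟩
    have hv0 : (s k).1.1 v = 0 := by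
      by_contra hc
      have := hN v hc
      omega
    have hw0 : (s k).1.1 w = 0 := by
      by_contra hc
      have := hN w hc
      omega
    have h2 := h1.2 v w hvw
    simp only [Pi.sub_apply, hv0, hw0, sub_zero] at h2
    linarith
  refine ⟨f, hLip, fun g hg ε hε => ?_⟩
  obtain ⟨g', hg'f, hg'⟩ := cutoff (o := o) hG hfin (g := g) (by
    intro ε hε
    obtain ⟨N, hN⟩ := hg ε hε
    refine ⟨N, fun v w hvw hNv => ?_⟩
    rcases hT v w hvw with h | h
    · exact hN v w hvw h hNv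
    · rw [norm_sub_rev]
      exact hN w v hvw.symm h (by omega)) (show 0 < ε / 4 by positivity)
  obtain ⟨q, hq⟩ := exists_toC (G := G) (o := o) hg'f (show 0 < ε / 4 by positivity)
  obtain ⟨i, hi⟩ := he q
  obtain ⟨K, hK⟩ := exists_pow_lt_of_lt_one (show 0 < ε / 4 by positivity)
    (show (1 / 2 : ℝ) < 1 by norm_num)
  set k := Nat.pair i K with hk
  have hkK : K ≤ k := Nat.right_le_pair i K
  have hDk : D k = toC q := by
    simp only [hD, hk, Nat.unpair_pair, hi]
  have hp : (1 : ℝ) / 2 / 2 ^ k ≤ ε / 4 := by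
    have h1 : ((1 : ℝ) / 2) ^ k ≤ (1 / 2) ^ K := pow_le_pow_of_le_one (by norm_num) (by norm_num) hkK
    rw [one_div_pow] at h1
    have h2 : (1 : ℝ) / 2 / 2 ^ k = (1 / 2 ^ k) / 2 := by ring
    have h3 : (0 : ℝ) < 1 / 2 ^ k := by positivity
    rw [h2]
    linarith
  refine ⟨(s (k + 1)).2, ?_⟩
  have t1 : NormLe G o ((f - (s (k + 1)).1.1) ∘ φ^[(s (k + 1)).2]) (ε / 4) := by
    refine ((htail (k + 1)).iterate hG hL _).mono ?_
    have h2 := hMn (s (k + 1)).2
    rw [← hM, mul_div_cancel₀ _ (by linarith)]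
    have : (1 : ℝ) / 2 ^ (k + 1) = 1 / 2 / 2 ^ k := by rw [pow_succ]; field_simp
    rw [this]
    exact hp
  have t2 : NormLe G o ((s (k + 1)).1.1 ∘ φ^[(s (k + 1)).2] - D k) (ε / 4) := (hclose k).mono hp
  have t3 := ((t1.add t2).add (hDk ▸ hq)).add hg'
  have e1 : (fun v => f (φ^[(s (k + 1)).2] v) - g v)
      = (f - (s (k + 1)).1.1) ∘ φ^[(s (k + 1)).2] +
        ((s (k + 1)).1.1 ∘ φ^[(s (k + 1)).2] - D k) + (D k - g') + (g' - g) := by
    funext v
    simp only [Pi.add_apply, Pi.sub_apply, Function.comp]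
    ring
  rw [e1]
  refine NormLe.mono t3 (le_of_eq ?_)
  ring

end Pool.Agent.R228.HT
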