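import Pool.Agent.R228.HT.B

/-!
# The graph of a parent function
-/

namespace Pool.Agent.R228.HT

variable {V : Type*}

/-- the graph of a parent function -/
def pgraph (p : V → V) : SimpleGraph V where
  Adj v w := v ≠ w ∧ (w = p v ∨ v = p w)
  symm := ⟨fun _ _ h => ⟨h.1.symm, h.2.symm⟩⟩
  loopless := ⟨fun _ h => h.1 rfl⟩

/-- `rk` is the level function of the parent function `p` with root `o` -/
structure IsPar (p : V → V) (o : V) (rk : V → ℕ) : Prop where
  root : p o = o
  rk_o : rk o = 0
  rk_p : ∀ v, v ≠ o → rk (p v) + 1 = rk v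

variable {p : V → V} {o : V} {rk : V → ℕ}

theorem IsPar.adj (h : IsPar p o rk) {v : V} (hv : v ≠ o) : (pgraph p).Adj v (p v) := by
  refine ⟨fun hc => ?_, Or.inl rfl⟩
  have := h.rk_p v hv
  rw [← hc] at this
  omega

theorem IsPar.cases (h : IsPar p o rk) {v w : V} (hvw : (pgraph p).Adj v w) :
    (v ≠ o ∧ w = p v) ∨ (w ≠ o ∧ v = p w) := by
  rcases hvw with ⟨h1, h2 | h2⟩
  · refine Or.inl ⟨fun hc => ?_, h2⟩
    rw [hc, h.root] at h2
    exact h1 (hc.trans h2.symm)
  · refine Or.inr ⟨fun hc => ?_, h2⟩
    rw [hc, h.root] at h2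
    exact h1 (h2.trans hc.symm)

theorem IsPar.reach (h : IsPar p o rk) : ∀ n v, rk v = n →
    ∃ q : (pgraph p).Walk v o, q.length = n := by
  intro n
  induction n with
  | zero =>
    intro v hv
    have : v = o := by
      by_contra hc
      have := h.rk_p v hc
      omega
    subst this
    exact ⟨SimpleGraph.Walk.nil, rfl⟩
  | succ n ih =>
    intro v hv
    have hvo : v ≠ o := fun hc => by rw [hc, h.rk_o] at hv; omega
    obtain ⟨q, hq⟩ := ih (p v) (by have := h.rk_p v hvo; omega)
    exact ⟨SimpleGraph.Walk.cons (h.adj hvo) q, by simp [hq]⟩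

theorem IsPar.connected (h : IsPar p o rk) : (pgraph p).Connected := by
  rw [SimpleGraph.connected_iff_exists_forall_reachable]
  exact ⟨o, fun v => (h.reach _ v rfl).choose.reachable.symm⟩

/-- lower bound for the distance by a potential -/
theorem pot_le {G : SimpleGraph V} (hG : G.Connected) {D : V → ℕ}
    (hD : ∀ v w, G.Adj v w → D v ≤ D w + 1) (v w : V) : D v ≤ D w + G.dist v w := by
  obtain ⟨q, hq⟩ := hG.exists_walk_length_eq_dist v w
  rw [← hq]
  clear hq
  induction q with
  | nil => simp
  | cons hab q ih =>
    have := hD _ _ hab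
    rw [SimpleGraph.Walk.length_cons]
    omega

theorem IsPar.dist_root (h : IsPar p o rk) (v : V) : (pgraph p).dist o v = rk v := by
  apply le_antisymm
  · obtain ⟨q, hq⟩ := h.reach _ v rfl
    rw [SimpleGraph.dist_comm, ← hq]
    exact SimpleGraph.dist_le q
  · have := pot_le h.connected (D := rk) (by
      intro v w hvw
      rcases h.cases hvw with ⟨h1, h2⟩ | ⟨h1, h2⟩
      · rw [h2]; exact (h.rk_p v h1).ge
      · have := h.rk_p w h1
        rw [← h2] at this
        omega) v o
    rw [h.rk_o, zero_add, SimpleGraph.dist_comm] at this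
    exact this

theorem IsPar.isTree (h : IsPar p o rk) : (pgraph p).IsTree := by
  refine ⟨h.connected, ?_⟩
  rw [SimpleGraph.isAcyclic_iff_forall_adj_isBridge]
  have key : ∀ v, v ≠ o → (pgraph p).IsBridge s(v, p v) := by
    intro v hv
    rw [SimpleGraph.isBridge_iff_forall_walk_mem_edges]
    intro q
    obtain ⟨d, hd, h1, h2⟩ := q.exists_boundary_dart {u | ∃ n, p^[n] u = v} ⟨0, rfl⟩
      (by
        rintro ⟨n, hn⟩
        rw [← Function.iterate_succ_apply] at hn
        have key : ∀ m u, rk (p^[m] u) ≤ rk u := by
          intro m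
          induction m with
          | zero => intro u; exact le_rfl
          | succ m ih =>
            intro u
            rw [Function.iterate_succ_apply]
            refine (ih _).trans ?_
            by_cases hu : u = o
            · rw [hu, h.root]
            · have := h.rk_p u hu
              omega
        rw [Function.iterate_succ_apply] at hn
        have h1 := key n (p v)
        rw [hn] at h1
        have := h.rk_p v hv
        omega)
    have e1 : d.fst = v ∧ d.snd = p v := by
      obtain ⟨n, hn⟩ := h1
      rcases d.adj.2 with h3 | h3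
      · cases n with
        | zero =>
          have : d.fst = v := hn
          exact ⟨this, by rw [h3, this]⟩
        | succ n =>
          exfalso
          apply h2
          refine ⟨n, ?_⟩
          rw [h3]
          rwa [Function.iterate_succ_apply] at hn
      · exfalso
        apply h2
        refine ⟨n + 1, ?_⟩
        rw [Function.iterate_succ_apply, ← h3]
        exact hn
    have h3 : d.edge ∈ q.edges := List.mem_map_of_mem hd
    have h4 : d.edge = s(v, p v) := by
      rw [← e1.2]
      have : d.edge = s(d.fst, d.snd) := rfl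
      rw [this, e1.1]
    rw [← h4]
    exact h3
  intro v w hvw
  rcases h.cases hvw with ⟨h1, h2⟩ | ⟨h1, h2⟩
  · rw [h2]; exact key v h1
  · rw [h2, Sym2.eq_swap]; exact key w h1

theorem IsPar.dist_p (h : IsPar p o rk) (v : V) : (pgraph p).dist v (p v) ≤ 1 := by
  by_cases hv : v = o
  · rw [hv, h.root, SimpleGraph.dist_self]
    omega
  · rw [SimpleGraph.dist_eq_one_iff_adj.2 (h.adj hv)]

/-- a function with small differences along deep edges, between vertices at bounded distance -/
theorem deep (h : IsPar p o rk) {f : V → ℂ} {ε : ℝ} {N : ℕ}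
    (hf : ∀ v w, (pgraph p).Adj v w → N ≤ rk v → ‖f v - f w‖ < ε) :
    ∀ (k : ℕ) (a b : V) (q : (pgraph p).Walk a b), q.length = k → N + k ≤ rk a →
      ‖f a - f b‖ ≤ k * ε := by
  intro k a b q
  induction q generalizing k with
  | nil => intro hk _; simp at hk; simp [← hk]
  | @cons a c b hac q ih =>
    intro hk hr
    rw [SimpleGraph.Walk.length_cons] at hk
    subst hk
    have h1 := hf a c hac (by omega)
    have hrc : rk a ≤ rk c + 1 := by
      rcases h.cases hac with ⟨h1, h2⟩ | ⟨h1, h2⟩
      · rw [h2]; exact (h.rk_p a h1).ge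
      · have := h.rk_p c h1
        rw [← h2] at this
        omega
    have h2 := ih q.length rfl (by omega)
    have h3 : f a - f b = (f a - f c) + (f c - f b) := by ring
    rw [h3]
    push_cast
    calc _ ≤ ‖f a - f c‖ + ‖f c - f b‖ := norm_add_le _ _
      _ ≤ _ := by linarith

end Pool.Agent.R228.HT
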