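import Pool.Agent.R228.HT.C

/-!
# The tree and the self-map: combinatorics
-/

namespace Pool.Agent.R228.HT

open Classical

/-- vertices: `(X, u)` is the vertex with word `u` in the ternary tree attached at the point `X` of
the spine -/
abbrev Vt := ℕ × List (Fin 3)

/-- parent -/
def par : Vt → Vt := fun v => if v.2 = [] then (v.1 - 1, []) else (v.1, v.2.dropLast)

def rt : Vt := (0, [])

def rk : Vt → ℕ := fun v => v.1 + v.2.length

theorem isPar : IsPar par rt rk := by
  refine ⟨by simp [par, rt], by simp [rk, rt], ?_⟩
  rintro ⟨X, u⟩ hv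
  by_cases hu : u = []
  · subst hu
    have : X ≠ 0 := by
      rintro rfl
      exact hv rfl
    simp only [par, rk, if_true, List.length_nil]
    omega
  · simp only [par, rk, if_neg hu, List.length_dropLast]
    have := List.length_pos_iff.2 hu
    omega

/-- the word with all letters doubled -/
def dbl : List (Fin 3) → List (Fin 3)
  | [] => []
  | a :: u => a :: a :: dbl u

theorem dbl_length (u : List (Fin 3)) : (dbl u).length = 2 * u.length := by
  induction u with
  | nil => rfl
  | cons a u ih => simp only [dbl, List.length_cons, ih]; omega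

theorem dbl_inj : ∀ {u t : List (Fin 3)}, dbl u = dbl t → u = t := by
  intro u
  induction u with
  | nil =>
    intro t h
    cases t with
    | nil => rfl
    | cons b t => simp [dbl] at h
  | cons a u ih =>
    intro t h
    cases t with
    | nil => simp [dbl] at h
    | cons b t =>
      simp only [dbl, List.cons.injEq] at h
      rw [h.1, ih h.2.2]

theorem dbl_append (u t : List (Fin 3)) : dbl (u ++ t) = dbl u ++ dbl t := by
  induction u with
  | nil => rfl
  | cons a u ih => simp [dbl, ih]

theorem dbl_replicate (m : ℕ) (a : Fin 3) :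
    dbl (List.replicate m a) = List.replicate (2 * m) a := by
  induction m with
  | zero => rfl
  | succ m ih => rw [List.replicate_succ, dbl, ih, Nat.mul_succ, List.replicate_succ,
      List.replicate_succ]

theorem dbl_eq_replicate : ∀ {m : ℕ} {a : Fin 3} {u : List (Fin 3)},
    dbl u = List.replicate m a → u = List.replicate u.length a := by
  intro m a u
  induction u generalizing m with
  | nil => intro _; rfl
  | cons b u ih =>
    intro h
    cases m with
    | zero => simp [dbl] at h
    | succ m =>
      cases m with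
      | zero => simp [dbl] at h
      | succ m =>
        simp only [dbl, List.replicate_succ, List.cons.injEq] at h
        rw [List.length_cons, List.replicate_succ, ← ih h.2.2, h.1]

/-- tree distance of words -/
def dd : List (Fin 3) → List (Fin 3) → ℕ
  | [], t => t.length
  | u, [] => u.length
  | a :: u, b :: t => if a = b then dd u t else u.length + t.length + 2

theorem dd_nil_left (t : List (Fin 3)) : dd [] t = t.length := by simp [dd]

theorem dd_nil_right (u : List (Fin 3)) : dd u [] = u.length := by
  cases u <;> simp [dd]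

theorem dd_cons_eq (a : Fin 3) (u t : List (Fin 3)) : dd (a :: u) (a :: t) = dd u t := by
  simp [dd]

theorem dd_cons_ne {a b : Fin 3} (h : a ≠ b) (u t : List (Fin 3)) :
    dd (a :: u) (b :: t) = u.length + t.length + 2 := by simp [dd, h]

theorem dd_self (u : List (Fin 3)) : dd u u = 0 := by
  induction u with
  | nil => rfl
  | cons a u ih => rw [dd_cons_eq, ih]

theorem dd_eq_zero : ∀ {u t : List (Fin 3)}, dd u t = 0 → u = t := by
  intro u
  induction u with
  | nil =>
    intro t h
    rw [dd_nil_left] at h
    exact (List.length_eq_zero_iff.1 h).symm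
  | cons a u ih =>
    intro t h
    cases t with
    | nil => rw [dd_nil_right] at h; simp at h
    | cons b t =>
      by_cases hab : a = b
      · subst hab
        rw [dd_cons_eq] at h
        rw [ih h]
      · rw [dd_cons_ne hab] at h
        omega

theorem dd_dbl : ∀ u t : List (Fin 3), dd (dbl u) (dbl t) = 2 * dd u t := by
  intro u
  induction u with
  | nil => intro t; rw [dbl, dd_nil_left, dd_nil_left, dbl_length]
  | cons a u ih =>
    intro t
    cases t with
    | nil =>
      rw [show dbl [] = [] from rfl, dd_nil_right, dd_nil_right, dbl_length]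
    | cons b t =>
      by_cases hab : a = b
      · subst hab
        rw [dbl, dbl, dd_cons_eq, dd_cons_eq, dd_cons_eq, ih]
      · rw [dbl, dbl, dd_cons_ne hab, dd_cons_ne hab]
        simp only [List.length_cons, dbl_length]
        omega

theorem dd_append : ∀ (u t : List (Fin 3)) (a : Fin 3),
    dd (u ++ [a]) t ≤ dd u t + 1 ∧ dd u t ≤ dd (u ++ [a]) t + 1 := by
  intro u
  induction u with
  | nil =>
    intro t a
    rw [List.nil_append, dd_nil_left]
    cases t with
    | nil => rw [dd_nil_right]; simp
    | cons b t =>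
      by_cases hab : a = b
      · subst hab
        rw [dd_cons_eq, dd_nil_left]
        simp only [List.length_cons]
        omega
      · rw [dd_cons_ne hab]
        simp only [List.length_cons, List.length_nil]
        omega
  | cons b u ih =>
    intro t a
    cases t with
    | nil =>
      rw [dd_nil_right, dd_nil_right]
      simp only [List.length_append, List.length_cons, List.length_nil]
      omega
    | cons c t =>
      rw [List.cons_append]
      by_cases hbc : b = c
      · subst hbc
        rw [dd_cons_eq, dd_cons_eq]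
        exact ih t a
      · rw [dd_cons_ne hbc, dd_cons_ne hbc]
        simp only [List.length_append, List.length_cons, List.length_nil]
        omega

theorem dd_replicate (a : Fin 3) : ∀ m k : ℕ, dd (List.replicate m a) (List.replicate k a)
    = (m - k) + (k - m) := by
  intro m
  induction m with
  | zero => intro k; rw [List.replicate_zero, dd_nil_left, List.length_replicate]; omega
  | succ m ih =>
    intro k
    cases k with
    | zero => rw [List.replicate_zero, dd_nil_right, List.length_replicate]; omega
    | succ k => rw [List.replicate_succ, List.replicate_succ, dd_cons_eq, ih]; omega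

/-- lower bound for the distance -/
def DD (v w : Vt) : ℕ :=
  if v.1 = w.1 then dd v.2 w.2 else (v.1 - w.1) + (w.1 - v.1) + v.2.length + w.2.length

theorem DD_self (v : Vt) : DD v v = 0 := by simp [DD, dd_self]

theorem DD_eq_zero {v w : Vt} (h : DD v w = 0) : v = w := by
  unfold DD at h
  by_cases h1 : v.1 = w.1
  · rw [if_pos h1] at h
    exact Prod.ext h1 (dd_eq_zero h)
  · rw [if_neg h1] at h
    omega

theorem DD_par (v w : Vt) : DD (par v) w ≤ DD v w + 1 ∧ DD v w ≤ DD (par v) w + 1 := by
  obtain ⟨X, u⟩ := v
  obtain ⟨Y, t⟩ := w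
  by_cases hu : u = []
  · subst hu
    simp only [par, if_true, DD, List.length_nil, dd_nil_left]
    by_cases h1 : X = Y
    · rw [if_pos h1]
      by_cases h2 : X - 1 = Y
      · rw [if_pos h2]; omega
      · rw [if_neg h2]; omega
    · rw [if_neg h1]
      by_cases h2 : X - 1 = Y
      · rw [if_pos h2]; omega
      · rw [if_neg h2]; omega
  · obtain ⟨u', a, rfl⟩ : ∃ u' a, u = u' ++ [a] :=
      ⟨u.dropLast, u.getLast hu, (List.dropLast_append_getLast hu).symm⟩
    simp only [par, if_neg hu, List.dropLast_concat, DD]
    by_cases h1 : X = Y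
    · rw [if_pos h1, if_pos h1]
      exact (dd_append u' t a).symm
    · rw [if_neg h1, if_neg h1]
      simp only [List.length_append, List.length_cons, List.length_nil]
      omega

/-- the tree -/
abbrev T : SimpleGraph Vt := pgraph par

theorem DD_le (v w : Vt) : DD v w ≤ T.dist v w := by
  have := pot_le isPar.connected (D := fun x => DD x w) (by
    intro a b hab
    rcases isPar.cases hab with ⟨_, h2⟩ | ⟨_, h2⟩
    · rw [h2]; exact (DD_par a w).2
    · rw [h2]; exact (DD_par b w).1) v w
  simpa [DD_self] using this

/-- the new letter -/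
def letter (X : ℕ) : Fin 3 := if X = 0 then 2 else if X % 2 = 1 then 1 else 0

theorem letter_inj {X Y : ℕ} (h : X / 2 = Y / 2) (hl : letter X = letter Y) : X = Y := by
  unfold letter at hl
  split_ifs at hl with h1 h2 h3 h4 h5 h6
  all_goals omega

/-- `X` is a power of two and the word is empty -/
def Sp (v : Vt) : Prop := v.2 = [] ∧ ∃ k : ℕ, v.1 = 2 ^ k

/-- the self-map -/
noncomputable def phi (v : Vt) : Vt :=
  if Sp v then (v.1 / 2, []) else (v.1 / 2, letter v.1 :: dbl v.2)

theorem phi_sp {v : Vt} (h : Sp v) : phi v = (v.1 / 2, []) := if_pos h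

theorem phi_nsp {v : Vt} (h : ¬ Sp v) : phi v = (v.1 / 2, letter v.1 :: dbl v.2) := if_neg h

theorem pow_half {i j : ℕ} (h : 2 ^ i / 2 = 2 ^ j / 2) : 2 ^ i = 2 ^ j := by
  cases i with
  | zero =>
    cases j with
    | zero => rfl
    | succ j =>
      rw [pow_succ, Nat.mul_div_cancel _ (by norm_num)] at h
      have h1 : 0 < 2 ^ j := by positivity
      have h2 : 0 = 2 ^ j := by simpa using h
      omega
  | succ i =>
    cases j with
    | zero =>
      rw [pow_succ, Nat.mul_div_cancel _ (by norm_num)] at h
      simp at h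
    | succ j =>
      rw [pow_succ, pow_succ, Nat.mul_div_cancel _ (by norm_num),
        Nat.mul_div_cancel _ (by norm_num)] at h
      rw [pow_succ, pow_succ, h]

theorem phi_inj : Function.Injective phi := by
  intro v w h
  by_cases hv : Sp v
  · by_cases hw : Sp w
    · rw [phi_sp hv, phi_sp hw] at h
      obtain ⟨h1, i, hi⟩ := hv
      obtain ⟨h2, j, hj⟩ := hw
      have := (Prod.ext_iff.1 h).1
      simp only [hi, hj] at this
      exact Prod.ext (by rw [hi, hj]; exact pow_half this) (h1.trans h2.symm)
    · rw [phi_sp hv, phi_nsp hw] at h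
      simp at h
  · by_cases hw : Sp w
    · rw [phi_nsp hv, phi_sp hw] at h
      simp at h
    · rw [phi_nsp hv, phi_nsp hw] at h
      simp only [Prod.mk.injEq, List.cons.injEq] at h
      exact Prod.ext (letter_inj h.1 h.2.1) (dbl_inj h.2.2)

theorem rk_phi (v : Vt) : rk v ≤ 2 * rk (phi v) + 1 := by
  by_cases hv : Sp v
  · rw [phi_sp hv]
    have := hv.1
    simp only [rk, this, List.length_nil]
    omega
  · rw [phi_nsp hv]
    simp only [rk, List.length_cons, dbl_length]
    omega

/-- the full orbit -/
def Z (v : Vt) : Prop := (v.2 = [] ∧ ∃ k : ℕ, v.1 = 2 ^ k) ∨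
  (v.1 = 0 ∧ ∃ k : ℕ, v.2 = List.replicate (2 ^ k - 1) 2)

theorem phi_a (k : ℕ) : phi (2 ^ (k + 1), []) = (2 ^ k, []) := by
  rw [phi_sp ⟨rfl, k + 1, rfl⟩]
  simp only [pow_succ]
  rw [Nat.mul_div_cancel _ (by norm_num)]

theorem phi_a0 : phi (1, []) = (0, []) := by
  rw [phi_sp ⟨rfl, 0, rfl⟩]
  rfl

theorem phi_b (k : ℕ) : phi (0, List.replicate (2 ^ k - 1) 2)
    = (0, List.replicate (2 ^ (k + 1) - 1) 2) := by
  rw [phi_nsp]
  · have h1 : 2 ^ (k + 1) - 1 = 2 * (2 ^ k - 1) + 1 := by
      have : 0 < 2 ^ k := by positivity
      rw [pow_succ]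
      omega
    rw [h1, List.replicate_succ, dbl_replicate]
    simp [letter]
  · rintro ⟨_, j, hj⟩
    have : 0 < 2 ^ j := by positivity
    simp only at hj
    omega

theorem Z_phi {v : Vt} (h : Z v) : Z (phi v) := by
  rcases h with ⟨h1, k, hk⟩ | ⟨h1, k, hk⟩
  · have hv : v = (2 ^ k, []) := Prod.ext hk h1
    rw [hv]
    cases k with
    | zero =>
      rw [pow_zero, phi_a0]
      exact Or.inr ⟨rfl, 0, rfl⟩
    | succ k =>
      rw [phi_a]
      exact Or.inl ⟨rfl, k, rfl⟩
  · have hv : v = (0, List.replicate (2 ^ k - 1) 2) := Prod.ext h1 hk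
    rw [hv, phi_b]
    exact Or.inr ⟨rfl, k + 1, rfl⟩

theorem Z_of_phi {v : Vt} (h : Z (phi v)) : Z v := by
  by_cases hv : Sp v
  · exact Or.inl hv
  · rw [phi_nsp hv] at h
    rcases h with ⟨h1, _⟩ | ⟨h1, k, hk⟩
    · simp at h1
    · simp only at h1 hk
      cases k with
      | zero => simp at hk
      | succ k =>
        have e1 : 2 ^ (k + 1) - 1 = (2 * (2 ^ k - 1)) + 1 := by
          have : 0 < 2 ^ k := by positivity
          rw [pow_succ]
          omega
        rw [e1, List.replicate_succ, List.cons.injEq] at hk
        obtain ⟨hl, hd⟩ := hk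
        have hX : v.1 = 0 := by
          unfold letter at hl
          split_ifs at hl with h2 h3
          · exact h2
          · exact absurd hl (by decide)
          · exact absurd hl (by decide)
        refine Or.inr ⟨hX, k, ?_⟩
        have h2 := dbl_eq_replicate hd
        have h3 : (dbl v.2).length = 2 * (2 ^ k - 1) := by rw [hd, List.length_replicate]
        rw [dbl_length] at h3
        have h4 : v.2.length = 2 ^ k - 1 := by omega
        rw [h2, h4]

theorem Z_iterate {v : Vt} (h : Z v) (n : ℕ) : Z (phi^[n] v) := by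
  induction n with
  | zero => exact h
  | succ n ih => rw [Function.iterate_succ_apply']; exact Z_phi ih

theorem not_Z_iterate {v : Vt} (h : ¬ Z v) (n : ℕ) : ¬ Z (phi^[n] v) := by
  induction n with
  | zero => exact h
  | succ n ih =>
    rw [Function.iterate_succ_apply']
    exact fun hc => ih (Z_of_phi hc)

theorem word_growth {v : Vt} (h : ¬ Z v) (n : ℕ) : 2 ^ n ≤ (phi^[n] v).2.length + 1 := by
  induction n with
  | zero => simp
  | succ n ih =>
    rw [Function.iterate_succ_apply']
    have h1 : ¬ Sp (phi^[n] v) := fun hc => not_Z_iterate h n (Or.inl hc)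
    rw [phi_nsp h1]
    simp only [List.length_cons, dbl_length]
    rw [pow_succ]
    omega

theorem sep_step {n : ℕ} {v w : Vt} (hw : ¬ Z w) (hl : 2 ^ n ≤ w.2.length + 1)
    (hD : 2 ^ n ≤ 2 * DD v w) : 2 ^ (n + 1) ≤ 2 * DD (phi v) (phi w) := by
  have h1 : ¬ Sp w := fun hc => hw (Or.inl hc)
  have hpos : 0 < 2 ^ n := by positivity
  rw [phi_nsp h1, pow_succ]
  by_cases hv : Sp v
  · rw [phi_sp hv]
    unfold DD
    simp only [dd_nil_left, List.length_cons, dbl_length, List.length_nil]
    split_ifs <;> omega
  · rw [phi_nsp hv]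
    by_cases h2 : v.1 = w.1
    · unfold DD at hD ⊢
      rw [if_pos h2] at hD
      simp only [h2, if_true, dd_cons_eq, dd_dbl]
      omega
    · by_cases h3 : v.1 / 2 = w.1 / 2
      · unfold DD
        simp only [h3, if_true]
        rw [dd_cons_ne (fun hc => h2 (letter_inj h3 hc))]
        simp only [dbl_length]
        omega
      · unfold DD
        simp only [if_neg h3, List.length_cons, dbl_length]
        omega

theorem sep {v w : Vt} (hw : ¬ Z w) (hvw : v ≠ w) (n : ℕ) :
    2 ^ n ≤ 2 * DD (phi^[n] v) (phi^[n] w) := by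
  induction n with
  | zero =>
    have : DD v w ≠ 0 := fun hc => hvw (DD_eq_zero hc)
    simp only [pow_zero, Function.iterate_zero, id]
    omega
  | succ n ih =>
    rw [Function.iterate_succ_apply', Function.iterate_succ_apply']
    exact sep_step (not_Z_iterate hw n) (word_growth hw n) ih

theorem DD_comm_Z {v w : Vt} (hv : Z v) (hw : Z w) (h : v ≠ w) : rk v ≤ 2 * DD v w := by
  rcases hv with ⟨h1, i, hi⟩ | ⟨h1, i, hi⟩
  · have hv : v = (2 ^ i, []) := Prod.ext hi h1
    rcases hw with ⟨h2, j, hj⟩ | ⟨h2, j, hj⟩
    · have hw : w = (2 ^ j, []) := Prod.ext hj h2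
      subst hv hw
      have hij : (2 : ℕ) ^ i ≠ 2 ^ j := by
        intro hc
        exact h (by rw [hc])
      unfold DD
      rw [if_neg hij]
      simp only [rk, List.length_nil]
      rcases lt_or_gt_of_ne (fun hc => hij (by rw [hc]) : i ≠ j) with h3 | h3
      · have : 2 ^ (i + 1) ≤ 2 ^ j := Nat.pow_le_pow_right (by norm_num) h3
        rw [pow_succ] at this
        omega
      · have : 2 ^ (j + 1) ≤ 2 ^ i := Nat.pow_le_pow_right (by norm_num) h3
        rw [pow_succ] at this
        omega
    · have hw : w = (0, List.replicate (2 ^ j - 1) 2) := Prod.ext h2 hj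
      subst hv hw
      have hpos : 0 < 2 ^ i := by positivity
      unfold DD
      rw [if_neg (by simp only; omega)]
      simp only [rk, List.length_nil]
      omega
  · have hv : v = (0, List.replicate (2 ^ i - 1) 2) := Prod.ext h1 hi
    rcases hw with ⟨h2, j, hj⟩ | ⟨h2, j, hj⟩
    · have hw : w = (2 ^ j, []) := Prod.ext hj h2
      subst hv hw
      have hpos : 0 < 2 ^ j := by positivity
      unfold DD
      rw [if_neg (by simp only; omega)]
      simp only [rk, List.length_replicate]
      omega
    · have hw : w = (0, List.replicate (2 ^ j - 1) 2) := Prod.ext h2 hj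
      subst hv hw
      have hij : i ≠ j := by
        intro hc
        exact h (by rw [hc])
      unfold DD
      rw [if_pos rfl]
      simp only [rk, List.length_replicate, dd_replicate]
      rcases lt_or_gt_of_ne hij with h3 | h3
      · have : 2 ^ (i + 1) ≤ 2 ^ j := Nat.pow_le_pow_right (by norm_num) h3
        rw [pow_succ] at this
        have hpos : 0 < 2 ^ i := by positivity
        omega
      · have : 2 ^ (j + 1) ≤ 2 ^ i := Nat.pow_le_pow_right (by norm_num) h3
        rw [pow_succ] at this
        have hpos : 0 < 2 ^ j := by positivity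
        omega

theorem iter_b (k n : ℕ) : phi^[n] (0, List.replicate (2 ^ k - 1) 2)
    = (0, List.replicate (2 ^ (k + n) - 1) 2) := by
  induction n with
  | zero => rfl
  | succ n ih => rw [Function.iterate_succ_apply', ih, phi_b]; rfl

theorem iter_a (k n : ℕ) : phi^[n] (2 ^ (k + n), []) = (2 ^ k, []) := by
  induction n with
  | zero => rfl
  | succ n ih => rw [Function.iterate_succ_apply, ← add_assoc, phi_a, ih]

theorem iter_a' (k n : ℕ) : phi^[n + (k + 1)] (2 ^ k, [])
    = (0, List.replicate (2 ^ n - 1) 2) := by
  have h1 : phi^[k + 1] (2 ^ k, []) = (0, []) := by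
    have := iter_a 0 k
    rw [zero_add] at this
    rw [Function.iterate_succ_apply', this, pow_zero, phi_a0]
  rw [Function.iterate_add_apply, h1]
  have := iter_b 0 n
  rw [zero_add] at this
  exact this

theorem Z_growth {v : Vt} (hv : Z v) (n : ℕ) :
    2 ^ n ≤ 2 * (rk v + 1) * (rk (phi^[n] v) + 1) := by
  rcases hv with ⟨h1, k, hk⟩ | ⟨h1, k, hk⟩
  · have hv : v = (2 ^ k, []) := Prod.ext hk h1
    subst hv
    rcases Nat.lt_or_ge k n with h | h
    · obtain ⟨m, rfl⟩ : ∃ m, n = m + (k + 1) := ⟨n - (k + 1), by omega⟩
      rw [iter_a']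
      simp only [rk, List.length_nil, List.length_replicate]
      have h2 : 0 < 2 ^ m := by positivity
      have h3 : 0 + (2 ^ m - 1) + 1 = 2 ^ m := by omega
      rw [h3, pow_add, pow_succ]
      nlinarith [Nat.pos_of_ne_zero (show 2 ^ k ≠ 0 by positivity)]
    · have h2 : 2 ^ n ≤ 2 ^ k := Nat.pow_le_pow_right (by norm_num) h
      simp only [rk, List.length_nil]
      calc 2 ^ n ≤ 2 ^ k := h2
        _ ≤ 2 * (2 ^ k + 0 + 1) * 1 := by omega
        _ ≤ _ := Nat.mul_le_mul_left _ (by omega)
  · have hv : v = (0, List.replicate (2 ^ k - 1) 2) := Prod.ext h1 hk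
    subst hv
    rw [iter_b]
    simp only [rk, List.length_replicate]
    have h2 : 0 < 2 ^ (k + n) := by positivity
    have h3 : 0 + (2 ^ (k + n) - 1) + 1 = 2 ^ (k + n) := by omega
    have h4 : 0 < 2 ^ k := by positivity
    rw [h3]
    calc 2 ^ n ≤ 2 ^ (k + n) := Nat.pow_le_pow_right (by norm_num) (by omega)
      _ = 1 * 2 ^ (k + n) := (one_mul _).symm
      _ ≤ _ := Nat.mul_le_mul_right _ (by omega)

/-- every vertex of the orbit `Z` of the root has preimages under all iterates -/
theorem exists_preimage (n : ℕ) : ∃ w, phi^[n] w = rt := by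
  cases n with
  | zero => exact ⟨rt, rfl⟩
  | succ n => exact ⟨(2 ^ n, []), by
      have := iter_a' n 0
      rw [zero_add] at this
      exact this⟩

end Pool.Agent.R228.HT
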