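import Pool.Agent.R228.HT.D

/-!
# The composition operator on the little Lipschitz space of the tree: final assembly
-/

namespace Pool.Agent.R228.HT

/-- The weighted composition operator `lam C_φ`, `f ↦ lam • (f ∘ φ)`. -/
def compOp {V : Type} (lam : ℂ) (φ : V → V) : (V → ℂ) → (V → ℂ) := fun f v => lam * f (φ v)

/-- The operator `A` maps the little Lipschitz space into itself and is bounded. -/
def BoundedOn {V : Type} (G : SimpleGraph V) (o : V) (A : (V → ℂ) → (V → ℂ)) : Prop :=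
  ∃ M : ℝ, ∀ f : V → ℂ, Lip0 G o f → Lip0 G o (A f) ∧
    ∀ B : ℝ, NormLe G o f B → NormLe G o (A f) (M * B)

/-- The operator `A` is hypercyclic on the little Lipschitz space: some `f` in it has an orbit
`A^n f` that approximates every `g` of the space. -/
def HypercyclicOn {V : Type} (G : SimpleGraph V) (o : V) (A : (V → ℂ) → (V → ℂ)) : Prop :=
  ∃ f : V → ℂ, Lip0 G o f ∧ ∀ g : V → ℂ, Lip0 G o g → ∀ ε : ℝ, 0 < ε →
    ∃ n : ℕ, NormLe G o (A^[n] f - g) ε

theorem fin_nbr (v : Vt) : (T.neighborSet v).Finite := by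
  obtain ⟨X, u⟩ := v
  refine (((Set.finite_singleton (par (X, u))).union (Set.finite_singleton (X + 1, []))).union
    (Set.finite_range (fun a : Fin 3 => ((X, u ++ [a]) : Vt)))).subset ?_
  rintro ⟨Y, t⟩ hw
  rcases isPar.cases hw with ⟨_, h2⟩ | ⟨h1, h2⟩
  · exact Or.inl (Or.inl h2)
  · by_cases ht : t = []
    · subst ht
      simp only [par, if_true, Prod.mk.injEq] at h2
      have hY : Y ≠ 0 := by
        rintro rfl
        exact h1 rfl
      refine Or.inl (Or.inr ?_)
      rw [Set.mem_singleton_iff, Prod.mk.injEq]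
      exact ⟨by omega, rfl⟩
    · simp only [par, if_neg ht, Prod.mk.injEq] at h2
      refine Or.inr ⟨t.getLast ht, ?_⟩
      simp only
      rw [h2.1, h2.2, List.dropLast_append_getLast ht]

theorem par_append (X : ℕ) (u : List (Fin 3)) (a : Fin 3) : par (X, u ++ [a]) = (X, u) := by
  have h : u ++ [a] ≠ [] := by simp
  simp only [par, if_neg h, List.dropLast_concat]

theorem par_succ (X : ℕ) : par (X + 1, []) = (X, []) := by simp [par]

theorem nbr_card (v : Vt) (hv : v ≠ rt) : 2 ≤ (T.neighborSet v).ncard := by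
  have h1 : 1 < (T.neighborSet v).ncard := by
    rw [Set.one_lt_ncard_iff (fin_nbr v)]
    have hc : par (v.1, v.2 ++ [0]) = v := par_append _ _ _
    have hne : ((v.1, v.2 ++ [0]) : Vt) ≠ rt := by
      intro h
      have := (Prod.ext_iff.1 h).2
      simp [rt] at this
    refine ⟨par v, (v.1, v.2 ++ [0]), isPar.adj hv, ?_, ?_⟩
    · have := (isPar.adj hne).symm
      rw [hc] at this
      exact this
    · intro h
      have h1 := isPar.rk_p v hv
      have h2 := isPar.rk_p _ hne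
      rw [hc] at h2
      rw [h] at h1
      omega
  exact h1

theorem dist_word (X : ℕ) (u : List (Fin 3)) (a : Fin 3) : T.dist (X, u ++ [a]) (X, u) ≤ 1 := by
  have := isPar.dist_p (X, u ++ [a])
  rwa [par_append] at this

theorem dist_spine (X : ℕ) : T.dist (X + 1, []) (X, []) ≤ 1 := by
  have := isPar.dist_p (X + 1, [])
  rwa [par_succ] at this

theorem tri {a b c : Vt} {m n : ℕ} (h1 : T.dist a b ≤ m) (h2 : T.dist b c ≤ n) :
    T.dist a c ≤ m + n := by
  have : T.dist a c ≤ T.dist a b + T.dist b c := isPar.connected.dist_triangle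
  omega

theorem phi_spine (X : ℕ) : T.dist (phi (X, [])) (X / 2, []) ≤ 1 := by
  by_cases h : Sp (X, [])
  · rw [phi_sp h]
    simp
  · rw [phi_nsp h]
    exact dist_word (X / 2) [] (letter X)

theorem phi_lip_par (v : Vt) (hv : v ≠ rt) : T.dist (phi v) (phi (par v)) ≤ 3 := by
  obtain ⟨X, u⟩ := v
  by_cases hu : u = []
  · subst hu
    obtain ⟨Y, rfl⟩ : ∃ Y, X = Y + 1 := by
      cases X with
      | zero => exact absurd rfl hv
      | succ Y => exact ⟨Y, rfl⟩
    rw [par_succ]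
    have h1 := phi_spine (Y + 1)
    have h2 := phi_spine Y
    have h3 : T.dist ((Y + 1) / 2, []) (Y / 2, []) ≤ 1 := by
      rcases Nat.even_or_odd Y with ⟨m, hm⟩ | ⟨m, hm⟩
      · have : (Y + 1) / 2 = Y / 2 := by omega
        rw [this]
        simp
      · have : (Y + 1) / 2 = Y / 2 + 1 := by omega
        rw [this]
        exact dist_spine _
    rw [SimpleGraph.dist_comm] at h2
    exact tri (tri h1 h3) h2
  · obtain ⟨u', a, rfl⟩ : ∃ u' a, u = u' ++ [a] :=
      ⟨u.dropLast, u.getLast hu, (List.dropLast_append_getLast hu).symm⟩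
    rw [par_append]
    have h1 : ¬ Sp (X, u' ++ [a]) := fun hc => hu hc.1
    rw [phi_nsp h1]
    have h2 : letter X :: dbl (u' ++ [a]) = ((letter X :: dbl u') ++ [a]) ++ [a] := by
      rw [dbl_append]
      simp [dbl]
    simp only
    rw [h2]
    have h3 := tri (dist_word (X / 2) ((letter X :: dbl u') ++ [a]) a)
      (dist_word (X / 2) (letter X :: dbl u') a)
    by_cases h : Sp (X, u')
    · rw [phi_sp h]
      have h4 : u' = [] := h.1
      subst h4
      exact tri h3 (dist_word (X / 2) [] (letter X))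
    · rw [phi_nsp h]
      exact h3.trans (by norm_num)

theorem phi_lip (v w : Vt) (hvw : T.Adj v w) : T.dist (phi v) (phi w) ≤ 3 := by
  rcases isPar.cases hvw with ⟨h1, h2⟩ | ⟨h1, h2⟩
  · rw [h2]; exact phi_lip_par v h1
  · rw [h2, SimpleGraph.dist_comm]; exact phi_lip_par w h1

theorem rk_adj {v w : Vt} (hvw : T.Adj v w) : rk v = rk w + 1 ∨ rk w = rk v + 1 := by
  rcases isPar.cases hvw with ⟨h1, h2⟩ | ⟨h1, h2⟩
  · rw [h2]; exact Or.inl (isPar.rk_p v h1).symm
  · rw [h2]; exact Or.inr (isPar.rk_p w h1).symm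

theorem rk_dist (v w : Vt) : rk v ≤ rk w + T.dist v w :=
  pot_le isPar.connected (fun a b hab => by rcases rk_adj hab with h | h <;> omega) v w

theorem exists_bound {S : Set Vt} (hS : S.Finite) : ∃ M, ∀ x ∈ S, rk x ≤ M := by
  refine ⟨∑ x ∈ hS.toFinset, rk x, fun x hx => ?_⟩
  exact Finset.single_le_sum (f := rk) (fun _ _ => Nat.zero_le _) (hS.mem_toFinset.2 hx)

theorem Z_of_rk {v : Vt} {M n : ℕ} (h : rk (phi^[n] v) ≤ M) (hn : M + 1 < 2 ^ n) : Z v := by
  by_contra hc
  have := word_growth hc n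
  simp only [rk] at h
  omega

theorem rk_big {v : Vt} {M n K : ℕ} (hv : Z v) (h : rk (phi^[n] v) ≤ M)
    (hn : 2 * (M + 1) * K ≤ 2 ^ n) : K ≤ rk v + 1 := by
  have h1 := Z_growth hv n
  have h2 : 2 * (rk v + 1) * (rk (phi^[n] v) + 1) ≤ 2 * (rk v + 1) * (M + 1) :=
    Nat.mul_le_mul_left _ (by omega)
  have h3 : 2 * (M + 1) * K ≤ 2 * (M + 1) * (rk v + 1) := by
    calc _ ≤ 2 ^ n := hn
      _ ≤ _ := h1.trans h2
      _ = _ := by ring
  exact Nat.le_of_mul_le_mul_left h3 (by positivity)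

theorem rk_big' {v : Vt} {M n K : ℕ} (hv : Z v) (h : rk v ≤ M)
    (hn : 2 * (M + 1) * K ≤ 2 ^ n) : K ≤ rk (phi^[n] v) + 1 := by
  have h1 := Z_growth hv n
  have h2 : 2 * (rk v + 1) * (rk (phi^[n] v) + 1) ≤ 2 * (M + 1) * (rk (phi^[n] v) + 1) :=
    Nat.mul_le_mul_right _ (by omega)
  exact Nat.le_of_mul_le_mul_left (hn.trans (h1.trans h2)) (by positivity)

theorem far_Z {v w : Vt} {R : ℕ} (hv : Z v) (hw : Z w) (h : v ≠ w) (hR : 2 * R ≤ rk v) :
    R ≤ T.dist v w := by
  have h1 := DD_comm_Z hv hw h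
  have h2 := DD_le v w
  omega

theorem A1 (S : Set Vt) (R : ℕ) (hS : S.Finite) : ∃ n0, ∀ n ≥ n0, ∀ v, phi^[n] v ∈ S →
    (∀ x ∈ S, R ≤ T.dist v x) ∧ ∀ v', phi^[n] v' ∈ S → v ≠ v' → R ≤ T.dist v v' := by
  obtain ⟨M, hM⟩ := exists_bound hS
  refine ⟨2 * (M + 1) * (2 * R + M + 2), fun n hn v hv => ?_⟩
  have h1 : 2 * (M + 1) * (2 * R + M + 2) ≤ 2 ^ n := hn.trans Nat.lt_two_pow_self.le
  have h2 : M + 1 < 2 ^ n := by nlinarith
  have hZ : Z v := Z_of_rk (hM _ hv) h2
  have h3 := rk_big hZ (hM _ hv) h1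
  refine ⟨fun x hx => ?_, fun v' hv' hne => ?_⟩
  · have h4 := rk_dist v x
    have h5 := hM x hx
    omega
  · have hZ' : Z v' := Z_of_rk (hM _ hv') h2
    exact far_Z hZ hZ' hne (by omega)

theorem A2 (S : Set Vt) (R : ℕ) (hS : S.Finite) : ∃ n0, ∀ n ≥ n0, ∀ w,
    (w ∈ S ∨ ∃ v, v ≠ w ∧ phi^[n] v ∈ S ∧ T.dist v w < R) →
      R ≤ T.dist (phi^[n] w) rt ∧ ∀ v', v' ≠ w → R ≤ T.dist (phi^[n] w) (phi^[n] v') := by
  obtain ⟨M, hM⟩ := exists_bound hS
  refine ⟨2 * (M + 1) * (2 * R + M + 2), fun n hn w hw => ?_⟩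
  have h1 : 2 * (M + 1) * (2 * R + M + 2) ≤ 2 ^ n := hn.trans Nat.lt_two_pow_self.le
  have h2 : M + 1 < 2 ^ n := by nlinarith
  have h3 : 2 * R + 1 ≤ 2 ^ n := by nlinarith
  have hroot : ∀ x : Vt, T.dist x rt = rk x := by
    intro x
    rw [SimpleGraph.dist_comm]
    exact isPar.dist_root x
  by_cases hZ : Z w
  · -- then `w ∈ S`
    have hwS : w ∈ S := by
      rcases hw with hw | ⟨v, hne, hv, hd⟩
      · exact hw
      · exfalso
        have hZv : Z v := Z_of_rk (hM _ hv) h2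
        have h4 := rk_big hZv (hM _ hv) h1
        have := far_Z (R := R) hZv hZ hne (by omega)
        omega
    have h5 := rk_big' hZ (hM w hwS) h1
    refine ⟨by rw [hroot]; omega, fun v' hne => ?_⟩
    by_cases hZ' : Z v'
    · exact far_Z (Z_iterate hZ n) (Z_iterate hZ' n)
        (fun hc => hne ((phi_inj.iterate n) hc).symm) (by omega)
    · have h6 := sep hZ' (Ne.symm hne) n
      have h7 := DD_le (phi^[n] w) (phi^[n] v')
      omega
  · have h4 := word_growth hZ n
    refine ⟨?_, fun v' hne => ?_⟩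
    · rw [hroot]
      simp only [rk]
      omega
    · have h6 := sep hZ hne n
      have h7 := DD_le (phi^[n] v') (phi^[n] w)
      rw [SimpleGraph.dist_comm] at h7
      omega

theorem comp_iter (φ : Vt → Vt) (f : Vt → ℂ) (n : ℕ) :
    (compOp 1 φ)^[n] f = fun v => f (φ^[n] v) := by
  induction n generalizing f with
  | zero => rfl
  | succ n ih =>
    rw [Function.iterate_succ_apply, ih]
    funext v
    simp only [compOp, one_mul, Function.iterate_succ_apply']

theorem bounded (lam : ℂ) : BoundedOn T rt (compOp lam phi) := by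
  refine ⟨‖lam‖ * (1 + T.dist (phi rt) rt + (3 : ℕ) : ℝ), fun f hf => ⟨?_, fun B hB => ?_⟩⟩
  · intro ε hε
    have hε' : 0 < ε / (4 * (‖lam‖ + 1)) := by positivity
    obtain ⟨N, hN⟩ := hf _ hε'
    have hdeep : ∀ v w, T.Adj v w → N ≤ rk v → ‖f v - f w‖ < ε / (4 * (‖lam‖ + 1)) := by
      intro v w hvw hr
      rcases rk_adj hvw with h | h
      · apply hN v w hvw <;> simp only [isPar.dist_root] <;> omega
      · rw [norm_sub_rev]
        apply hN w v hvw.symm <;> simp only [isPar.dist_root] <;> omega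
    refine ⟨2 * (N + 3) + 1, fun v w hvw _ hr => ?_⟩
    rw [isPar.dist_root] at hr
    have h1 := rk_phi v
    obtain ⟨q, hq⟩ := isPar.connected.exists_walk_length_eq_dist (phi v) (phi w)
    have h2 : q.length ≤ 3 := hq ▸ phi_lip v w hvw
    have h3 := deep isPar hdeep q.length (phi v) (phi w) q rfl (by omega)
    simp only [compOp]
    rw [← mul_sub, norm_mul]
    have h4 : (q.length : ℝ) ≤ 3 := by exact_mod_cast h2
    have h5 : ‖f (phi v) - f (phi w)‖ ≤ 3 * (ε / (4 * (‖lam‖ + 1))) :=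
      h3.trans (mul_le_mul_of_nonneg_right h4 hε'.le)
    have h6 : ‖lam‖ * (3 * (ε / (4 * (‖lam‖ + 1)))) < ε := by
      have h7 : 0 ≤ ‖lam‖ := norm_nonneg _
      have h8 : ‖lam‖ * (3 * (ε / (4 * (‖lam‖ + 1)))) = ε * (3 * ‖lam‖ / (4 * (‖lam‖ + 1))) := by
        ring
      rw [h8]
      have h9 : 3 * ‖lam‖ / (4 * (‖lam‖ + 1)) < 1 := by
        rw [div_lt_one (by positivity)]
        linarith
      nlinarith
    exact lt_of_le_of_lt (mul_le_mul_of_nonneg_left h5 (norm_nonneg _)) h6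
  · have h1 := hB.comp isPar.connected phi_lip
    have e1 : ∀ x : Vt, compOp lam phi f x = lam * (f ∘ phi) x := fun x => rfl
    refine ⟨?_, fun v w hvw => ?_⟩
    · rw [e1, norm_mul, mul_assoc]
      exact mul_le_mul_of_nonneg_left h1.1 (norm_nonneg _)
    · rw [e1, e1, ← mul_sub, norm_mul, mul_assoc]
      exact mul_le_mul_of_nonneg_left (h1.2 v w hvw) (norm_nonneg _)

theorem hyper : HypercyclicOn T rt (compOp 1 phi) := by
  obtain ⟨f, hf, h⟩ := hypercyclic (o := rt) isPar.connected fin_nbr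
    (fun v w hvw => by
      rw [isPar.dist_root, isPar.dist_root]
      exact rk_adj hvw) phi phi_inj 3 phi_lip A1 A2
  refine ⟨f, hf, fun g hg ε hε => ?_⟩
  obtain ⟨n, hn⟩ := h g hg ε hε
  refine ⟨n, ?_⟩
  rw [comp_iter]
  exact hn

end Pool.Agent.R228.HT
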